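import Pool.Agent.Lib_helper15.Hilden

/-!
Hyperinvariant subspaces from a localizing family of operators having controlled transfers through
the powers of `S` (a Lomonosov and Hilden type theorem beyond the commutant).
-/

set_option autoImplicit false

open Filter Topology

namespace Pool.Agent.Lib_helper15.Kept.BackwardOrbits

open Pool.Agent.Lib_helper15

/-- Let `X` be a reflexive complex Banach space and `S` a bounded operator that is not a scalar
multiple of the identity. Let `W` be a set of sequences `(V 0, V 1, ...)` of bounded operators with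
`V m S = S V (m + 1)` and norm bounds `κ m`, which is localizing on some ball: every
sequence `y j` of the ball has a subsequence with `V_j 0 (y (φ j))` convergent to a nonzero vector,
for suitable members `V_j` of `W`. Then either `S` has a nontrivial hyperinvariant subspace, or a
dense set of vectors `x` has a backward orbit `x = z 0 = S (z 1)`, `z 1 = S (z 2)`, ... with growth
at most `c ^ (m + 1) κ 0 ... κ (m - 1)`. -/
theorem result :
    ∀ (X : Type) [NormedAddCommGroup X] [NormedSpace ℂ X] [CompleteSpace X],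
      Function.Surjective (NormedSpace.inclusionInDoubleDual ℂ X) →
      ∀ S : X →L[ℂ] X, (∀ c : ℂ, S ≠ c • ContinuousLinearMap.id ℂ X) →
      ∀ (W : Set (ℕ → X →L[ℂ] X)) (κ : ℕ → ℝ) (x₀ : X) (r : ℝ), 0 < r →
        (∀ V ∈ W, ∀ m : ℕ, ‖V m‖ ≤ κ m) →
        (∀ V ∈ W, ∀ m : ℕ, V m * S = S * V (m + 1)) →
        (∀ y : ℕ → X, (∀ j, ‖y j - x₀‖ ≤ r) →
          ∃ φ : ℕ → ℕ, StrictMono φ ∧ ∃ V : ℕ → ℕ → X →L[ℂ] X, (∀ j, V j ∈ W) ∧
            ∃ w : X, w ≠ 0 ∧ Tendsto (fun j => V j 0 (y (φ j))) atTop (𝓝 w)) →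
        (∃ M : Submodule ℂ X, IsClosed (M : Set X) ∧ M ≠ ⊥ ∧ M ≠ ⊤ ∧
          ∀ A : X →L[ℂ] X, A * S = S * A → ∀ x ∈ M, A x ∈ M) ∨
        Dense {x : X | ∃ c : ℝ, ∃ z : ℕ → X, z 0 = x ∧ (∀ m, S (z (m + 1)) = z m) ∧
          ∀ m, ‖z m‖ ≤ c ^ (m + 1) * ∏ j ∈ Finset.range m, κ j} := by
  intro X _ _ _ hrefl S hS W κ x₀ r hr hκ hcomm hloc
  by_cases h : HasNontrivialHyperinvariantSubspace S
  · exact Or.inl h
  right
  obtain ⟨c, hc, z, hz0, hz, hzn⟩ := finite_backward h hS κ W hκ hcomm x₀ r hr hloc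
  obtain ⟨x, hx, hxo⟩ := infinite_backward hrefl κ x₀ r c z hz0 hz hzn
  have hx0 : x ≠ 0 := by
    rintro rfl
    obtain ⟨φ, _, V, _, w, hw, hlim⟩ := hloc (fun _ => 0) (fun _ => hx)
    apply hw
    refine tendsto_nhds_unique hlim ?_
    simp
  have hκ0 : ∀ m, 0 ≤ κ m := by
    intro m
    obtain ⟨φ, _, V, hV, _⟩ := hloc (fun _ => x) (fun _ => hx)
    exact (norm_nonneg _).trans (hκ (V 0) (hV 0) m)
  exact dense_backward h κ hκ0 hx0 hxo

end Pool.Agent.Lib_helper15.Kept.BackwardOrbits
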