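import Pool.Agent.Lib_helper15.Bishop.Group

/-!
# Bishop operators and weighted translation operators have hyperinvariant subspaces
-/

set_option autoImplicit false

namespace Pool.Agent.Kept15.BishopGeneral

open MeasureTheory
open scoped ENNReal

/-- `T` has a closed subspace, other than `0` and the whole space, which is invariant under every
bounded operator commuting with `T`. -/
def HasHyperinvariantSubspace {E : Type*} [NormedAddCommGroup E] [NormedSpace ℂ E]
    (T : E →L[ℂ] E) : Prop :=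
  ∃ M : Submodule ℂ E, IsClosed (M : Set E) ∧ M ≠ ⊥ ∧ M ≠ ⊤ ∧
    ∀ A : E →L[ℂ] E, A * T = T * A → ∀ x ∈ M, A x ∈ M

/-- `T` is the weighted translation operator `T f = w · (f ∘ τ)` on `L^p(μ)`. -/
def IsWeightedTranslation {X : Type*} [MeasurableSpace X] {μ : Measure X} {p : ℝ≥0∞}
    [Fact (1 ≤ p)] (w : X → ℂ) (τ : X → X) (T : Lp ℂ p μ →L[ℂ] Lp ℂ p μ) : Prop :=
  ∀ f : Lp ℂ p μ, (T f : X → ℂ) =ᵐ[μ] fun t => w t * (f : X → ℂ) (τ t)

/-- The point `t` is tame for the weight `w` and the bijection `τ`: the function `w` does not vanish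
on the orbit of `t`, and the two sided Birkhoff sums `S n` of `log |w|` along the orbit of `t` are on
every window `|n| ≤ 2 ^ i` within distance `r i` of a linear function `n ↦ s i * n`, where
`∑ r i / 2 ^ i < ∞`. -/
def IsTame {X : Type*} (w : X → ℂ) (τ : Equiv.Perm X) (t : X) : Prop :=
  (∀ n : ℤ, w ((τ ^ n) t) ≠ 0) ∧
  ∃ (S : ℤ → ℝ) (s r : ℕ → ℝ), S 0 = 0 ∧
    (∀ n : ℤ, S (n + 1) = S n + Real.log ‖w ((τ ^ n) t)‖) ∧
    (Summable fun i => r i / 2 ^ i) ∧
    ∀ (i : ℕ) (n : ℤ), |(n : ℝ)| ≤ 2 ^ i → |S n - s i * n| ≤ r i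

/-- A weighted translation operator `T f = w · (f ∘ τ)` on `L^p(μ)`, `1 ≤ p ≤ ∞`, with `τ` an
aperiodic invertible measure preserving transformation and `w` bounded, has a nontrivial
hyperinvariant subspace as soon as the set of tame points is not a null set. -/
def GeneralCriterion.{u} : Prop :=
  ∀ (X : Type u) [TopologicalSpace X] [SecondCountableTopology X] [T2Space X]
    [MeasurableSpace X] [BorelSpace X] (μ : Measure X) [SigmaFinite μ] (τ : Equiv.Perm X),
    MeasurePreserving τ μ μ → Measurable τ.symm →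
    (∀ n : ℤ, n ≠ 0 → ∀ᵐ t ∂μ, (τ ^ n) t ≠ t) →
    ∀ w : X → ℂ, Measurable w → (∃ C : ℝ, ∀ t, ‖w t‖ ≤ C) →
    (¬ ∀ᵐ t ∂μ, ¬ IsTame w τ t) →
    ∀ (p : ℝ≥0∞) [Fact (1 ≤ p)] (T : Lp ℂ p μ →L[ℂ] Lp ℂ p μ),
    IsWeightedTranslation w τ T → HasHyperinvariantSubspace T

/-- Translations `x ↦ x + a` of abelian groups with an invariant measure, `a` of infinite order, and
weights `w` such that `log |w|` is the real part of an absolutely convergent series of
characters. -/
def GroupTranslations.{u} : Prop :=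
  ∀ (K : Type u) [AddCommGroup K] [TopologicalSpace K] [IsTopologicalAddGroup K]
    [SecondCountableTopology K] [T2Space K] [MeasurableSpace K] [BorelSpace K]
    (μ : Measure K) [SigmaFinite μ] (a : K), μ ≠ 0 →
    MeasurePreserving (fun x => x + a) μ μ → (∀ n : ℤ, n ≠ 0 → n • a ≠ 0) →
    ∀ w : K → ℂ, Measurable w →
    ∀ (c : ℕ → ℂ) (χ : ℕ → AddChar K Circle), (Summable fun k => ‖c k‖) →
    (∀ x, ‖w x‖ = Real.exp (∑' k, c k * (χ k x : ℂ)).re) →
    ∀ (p : ℝ≥0∞) [Fact (1 ≤ p)] (T : Lp ℂ p μ →L[ℂ] Lp ℂ p μ),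
    IsWeightedTranslation w (fun x => x + a) T → HasHyperinvariantSubspace T

/-- Irrational rotations `t ↦ t + α` of the circle, and bounded weights `w`, nonzero almost
everywhere, such that `log |w|` is integrable and has `L^1` modulus of continuity at `2 ^ (-j)` at
most `ω j`, where `∑ (j + 1) ω j < ∞`. -/
def IrrationalRotations : Prop :=
  ∀ w : UnitAddCircle → ℂ, Measurable w → (∃ C : ℝ, ∀ t, ‖w t‖ ≤ C) →
    (∀ᵐ t : UnitAddCircle, w t ≠ 0) → Integrable (fun t : UnitAddCircle => Real.log ‖w t‖) →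
    ∀ ω : ℕ → ℝ, (Summable fun j : ℕ => (j + 1 : ℝ) * ω j) →
    (∀ (j : ℕ) (u : ℝ), |u| ≤ 1 / 2 ^ j →
      ∫ t : UnitAddCircle, |Real.log ‖w (t + (u : UnitAddCircle))‖ - Real.log ‖w t‖| ≤ ω j) →
    ∀ α : ℝ, Irrational α → ∀ (p : ℝ≥0∞) [Fact (1 ≤ p)]
    (T : Lp ℂ p (volume : Measure UnitAddCircle) →L[ℂ] Lp ℂ p (volume : Measure UnitAddCircle)),
    IsWeightedTranslation w (fun t => t + (α : UnitAddCircle)) T → HasHyperinvariantSubspace T

/-- All Bishop operators `T f (x) = x f ({x + α})` on `L^p[0,1)`, `1 ≤ p ≤ ∞`, `α` real, have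
nontrivial hyperinvariant subspaces. -/
def AllBishopOperators : Prop :=
  ∀ (α : ℝ) (p : ℝ≥0∞) [Fact (1 ≤ p)]
    (T : Lp ℂ p ((volume : Measure ℝ).restrict (Set.Ico 0 1)) →L[ℂ]
      Lp ℂ p ((volume : Measure ℝ).restrict (Set.Ico 0 1))),
    IsWeightedTranslation (fun x : ℝ => (x : ℂ)) (fun x => Int.fract (x + α)) T →
    HasHyperinvariantSubspace T

/-- Hyperinvariant subspaces of weighted translation operators, in particular of all Bishop
operators. -/
theorem bishop_general.{u} : GeneralCriterion.{u} ∧ GroupTranslations.{u} ∧ IrrationalRotations ∧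
    AllBishopOperators := by
  refine ⟨?_, ?_, ?_, ?_⟩
  · intro X _ _ _ _ _ μ _ τ hτ hτs hfree w hw hwb hG p _ T hT
    refine Pool.Agent.Bishop.modG_all μ τ hτ hτs hfree w hw hwb {t | IsTame w τ t} ?_ ?_ p T hT
    · intro h0
      exact hG (measure_eq_zero_iff_ae_notMem.1 h0)
    · intro t ht
      obtain ⟨h1, S, s, r, h2, h3, h4, h5⟩ := ht
      refine ⟨h1, Pool.Agent.Bishop.tameB_of_cocycle Pool.Agent.Bishop.modK _ τ t S s r h2 h3 h4 ?_⟩
      intro i n hn
      have := h5 i n hn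
      rwa [mul_comm (s i) (n : ℝ)] at this
  · intro K _ _ _ _ _ _ _ μ _ a hμ ha hfree w hw c χ hc hwc p _ T hT
    exact Pool.Agent.Bishop.group_main μ a hμ ha hfree w hw c χ hc hwc p T hT
  · intro w hw hwb hw0 hwi ω hω hmod α hα p _ T hT
    exact Pool.Agent.Bishop.circle_main Pool.Agent.Bishop.modG_all Pool.Agent.Bishop.modR_all
      w hw hwb hw0 hwi ω hω hmod α hα p T hT
  · intro α p _ T hT
    exact Pool.Agent.Bishop.modX0 p α (fun T' hT' =>
      Pool.Agent.Bishop.bishop_circle Pool.Agent.Bishop.modG_all Pool.Agent.Bishop.modR_all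
        Pool.Agent.Bishop.modW Pool.Agent.Bishop.modQ α p T' hT') T hT

end Pool.Agent.Kept15.BishopGeneral
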