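import Pool.Agent.Lib_helper15.FiniteMult

/-!
Hyperinvariant subspaces for operators `S` that are homogeneous with respect to a power bounded
operator `T` (that is, `T S = lam S T`) having a unimodular eigenvalue of finite multiplicity.
-/

set_option autoImplicit false

namespace Pool.Agent.Lib_helper15.Kept.FiniteMultiplicity

open Pool.Agent.Lib_helper15

/-- Let `X` be a reflexive complex Banach space, `S` a bounded operator that is not a scalar
multiple of the identity, and let `T` be a power bounded operator with `T S = lam S T` having an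
eigenvalue `mu` of modulus one and of finite multiplicity. Then either `S` has a nontrivial
hyperinvariant subspace, or `lam` has modulus one and is not a root of unity, there is a bounded
operator `B` commuting with `S`, with `B T = lam T B`, inverting `S` on all the eigenspaces of `T`
for the eigenvalues `mu lam ^ n`, and every linear map of the eigenspace `ker (T - mu)` into itself
extends to a bounded operator commuting with `S` and `T`. -/
theorem result :
    ∀ (X : Type) [NormedAddCommGroup X] [NormedSpace ℂ X] [CompleteSpace X],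
      Function.Surjective (NormedSpace.inclusionInDoubleDual ℂ X) →
      ∀ (S T : X →L[ℂ] X) (lam mu : ℂ), (∀ c : ℂ, S ≠ c • ContinuousLinearMap.id ℂ X) →
        T * S = lam • (S * T) →
        (∃ C : ℝ, ∀ n : ℕ, ‖T ^ n‖ ≤ C) →
        ‖mu‖ = 1 →
        FiniteDimensional ℂ (Module.End.eigenspace (T : X →ₗ[ℂ] X) mu) →
        Module.End.eigenspace (T : X →ₗ[ℂ] X) mu ≠ ⊥ →
        (∃ M : Submodule ℂ X, IsClosed (M : Set X) ∧ M ≠ ⊥ ∧ M ≠ ⊤ ∧
          ∀ A : X →L[ℂ] X, A * S = S * A → ∀ x ∈ M, A x ∈ M) ∨
        (‖lam‖ = 1 ∧ (∀ m : ℕ, 0 < m → lam ^ m ≠ 1) ∧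
          (∃ B : X →L[ℂ] X, B * S = S * B ∧ B * T = lam • (T * B) ∧
            ∀ (n : ℤ) (y : X), T y = (mu * lam ^ n) • y → S (B y) = y) ∧
          ∀ L : Module.End.eigenspace (T : X →ₗ[ℂ] X) mu →ₗ[ℂ]
              Module.End.eigenspace (T : X →ₗ[ℂ] X) mu,
            ∃ D : X →L[ℂ] X, D * S = S * D ∧ D * T = T * D ∧
              ∀ x : Module.End.eigenspace (T : X →ₗ[ℂ] X) mu, D (x : X) =
                ((L x : Module.End.eigenspace (T : X →ₗ[ℂ] X) mu) : X)) := by
  intro X _ _ _ hrefl S T lam mu hS hTS hT hmu hfin hne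
  obtain ⟨C, hT⟩ := hT
  exact finite_multiplicity_dichotomy hrefl S T hS lam mu hTS C hT hmu hfin hne

end Pool.Agent.Lib_helper15.Kept.FiniteMultiplicity
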