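import Pool.Agent.Lib_helper15.Forward

/-!
Hyperinvariant subspaces from a localizing family in the (generalized) Deddens algebra of an
operator with a fast decaying orbit.
-/

set_option autoImplicit false

open Filter Topology

namespace Pool.Agent.Results.MP_5ac32f_an.ForwardLocalizing

open Pool.Agent.Lib_helper15

/-- Let `S` be a bounded operator on a complex Banach space, not a scalar multiple of the identity.
Let `W` be a set of sequences `(V 0, V 1, ...)` of bounded operators with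
`S V m = V (m + 1) S` and norm bounds `κ m`, which is localizing on some ball. If some
nonzero `y` satisfies `(‖S ^ n y‖ κ 1 ... κ n) ^ (1 / n) → 0`, then `S` has a nontrivial
hyperinvariant subspace. -/
theorem result :
    ∀ (X : Type) [NormedAddCommGroup X] [NormedSpace ℂ X] [CompleteSpace X],
      ∀ S : X →L[ℂ] X, (∀ c : ℂ, S ≠ c • ContinuousLinearMap.id ℂ X) →
      ∀ (W : Set (ℕ → X →L[ℂ] X)) (κ : ℕ → ℝ) (x₀ : X) (r : ℝ), 0 < r →
        (∀ V ∈ W, ∀ m : ℕ, ‖V m‖ ≤ κ m) →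
        (∀ V ∈ W, ∀ m : ℕ, S * V m = V (m + 1) * S) →
        (∀ y : ℕ → X, (∀ j, ‖y j - x₀‖ ≤ r) →
          ∃ φ : ℕ → ℕ, StrictMono φ ∧ ∃ V : ℕ → ℕ → X →L[ℂ] X, (∀ j, V j ∈ W) ∧
            ∃ w : X, w ≠ 0 ∧ Tendsto (fun j => V j 0 (y (φ j))) atTop (𝓝 w)) →
        (∃ y : X, y ≠ 0 ∧ ∀ ε : ℝ, 0 < ε →
          ∀ᶠ n in atTop, ‖(S ^ n) y‖ * ∏ j ∈ Finset.range n, κ (j + 1) ≤ ε ^ n) →
        ∃ M : Submodule ℂ X, IsClosed (M : Set X) ∧ M ≠ ⊥ ∧ M ≠ ⊤ ∧
          ∀ A : X →L[ℂ] X, A * S = S * A → ∀ x ∈ M, A x ∈ M := by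
  intro X _ _ _ S hS W κ x₀ r hr hκ hcomm hloc hy
  obtain ⟨y, hy0, hy⟩ := hy
  exact forward_localizing S hS W κ x₀ r hr hκ hcomm hloc y hy0 hy

end Pool.Agent.Results.MP_5ac32f_an.ForwardLocalizing
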