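import Pool.Agent.Lib_helper15.C10.All

/-!
# Power bounded operators outside the class `C_00` have hyperinvariant subspaces
-/

set_option autoImplicit false

namespace Pool.Agent.Kept15.OutsideGeneral

open Filter
open scoped Topology

/-- `T` has a closed subspace, other than `0` and the whole space, which is invariant under every
bounded operator commuting with `T`. -/
def HasHyperinvariantSubspace {E : Type*} [NormedAddCommGroup E] [NormedSpace ℂ E]
    (T : E →L[ℂ] E) : Prop :=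
  ∃ M : Submodule ℂ E, IsClosed (M : Set E) ∧ M ≠ ⊥ ∧ M ≠ ⊤ ∧
    ∀ A : E →L[ℂ] E, A * T = T * A → ∀ x ∈ M, A x ∈ M

/-- `T` is of class `C_00`: `T ^ n x → 0` for all `x`, and `φ ∘ T ^ n → 0` in norm for all `φ` in
the dual space. -/
def IsC00 {E : Type*} [NormedAddCommGroup E] [NormedSpace ℂ E] (T : E →L[ℂ] E) : Prop :=
  (∀ x : E, Tendsto (fun n : ℕ => (T ^ n) x) atTop (𝓝 0)) ∧
    ∀ φ : E →L[ℂ] ℂ, Tendsto (fun n : ℕ => φ.comp (T ^ n)) atTop (𝓝 0)

/-- Every power bounded operator on a separable Hilbert space which is not a scalar multiple of the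
identity and not of class `C_00` has a nontrivial hyperinvariant subspace. -/
def PowerBounded.{u} : Prop :=
  ∀ (H : Type u) [NormedAddCommGroup H] [InnerProductSpace ℂ H] [CompleteSpace H]
    [TopologicalSpace.SeparableSpace H] (T : H →L[ℂ] H), (∃ M : ℝ, ∀ n : ℕ, ‖T ^ n‖ ≤ M) →
    (∀ c : ℂ, T ≠ c • ContinuousLinearMap.id ℂ H) → ¬ IsC00 T → HasHyperinvariantSubspace T

/-- Every polynomially bounded operator on a separable reflexive Banach space which is not a scalar
multiple of the identity and not of class `C_00` has a nontrivial hyperinvariant subspace. -/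
def PolynomiallyBounded.{u} : Prop :=
  ∀ (E : Type u) [NormedAddCommGroup E] [NormedSpace ℂ E] [CompleteSpace E]
    [TopologicalSpace.SeparableSpace E],
    Function.Surjective (NormedSpace.inclusionInDoubleDual ℂ E) → ∀ T : E →L[ℂ] E,
    (∃ C : ℝ, ∀ (p : Polynomial ℂ) (b : ℝ), (∀ z : ℂ, ‖z‖ ≤ 1 → ‖p.eval z‖ ≤ b) →
      ‖Polynomial.aeval T p‖ ≤ C * b) →
    (∀ c : ℂ, T ≠ c • ContinuousLinearMap.id ℂ E) → ¬ IsC00 T → HasHyperinvariantSubspace T

/-- Local criterion, for an arbitrary bounded operator `T` on a separable reflexive Banach space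
`E`: there are a bounded linear map `Φ` from the continuous functions on the unit circle to the dual
of `E` with `Φ (z f) = Φ f ∘ T` and `Φ f ∘ T ^ n → 0`, and a vector `x₀` with `Φ 1 x₀ ≠ 0` and
`‖p(T) x₀‖ ≤ C sup_{|z| ≤ 1} |p(z)|` for all polynomials `p`. -/
def LocalCriterion.{u} : Prop :=
  ∀ (E : Type u) [NormedAddCommGroup E] [NormedSpace ℂ E] [CompleteSpace E]
    [TopologicalSpace.SeparableSpace E],
    Function.Surjective (NormedSpace.inclusionInDoubleDual ℂ E) → ∀ T : E →L[ℂ] E,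
    ∀ Φ : C(Circle, ℂ) →L[ℂ] (E →L[ℂ] ℂ),
    (∀ f g : C(Circle, ℂ), (∀ z : Circle, g z = z * f z) → ∀ x, Φ g x = Φ f (T x)) →
    (∀ f : C(Circle, ℂ), Tendsto (fun n : ℕ => (Φ f).comp (T ^ n)) atTop (𝓝 0)) →
    ∀ x₀ : E, Φ 1 x₀ ≠ 0 →
    (∃ C : ℝ, ∀ (p : Polynomial ℂ) (b : ℝ), (∀ z : ℂ, ‖z‖ ≤ 1 → ‖p.eval z‖ ≤ b) →
      ‖Polynomial.aeval T p x₀‖ ≤ C * b) →
    HasHyperinvariantSubspace T

/-- Hyperinvariant subspaces of operators outside the class `C_00`. -/
theorem outside_general.{u} : PowerBounded.{u} ∧ PolynomiallyBounded.{u} ∧ LocalCriterion.{u} := by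
  refine ⟨?_, ?_, ?_⟩
  · intro H _ _ _ _ T ⟨M, hM⟩ hne h00
    exact Pool.Agent.C10.final_powerBounded T M hM hne h00
  · intro E _ _ _ _ hrefl T ⟨C, hC⟩ hne h00
    exact Pool.Agent.C10.final_polyBounded hrefl T C hC hne h00
  · intro E _ _ _ _ hrefl T Φ hΦ h0 x₀ hx₀ ⟨C, hC⟩
    exact Pool.Agent.C10.final_local hrefl T Φ hΦ h0 x₀ hx₀ C hC

end Pool.Agent.Kept15.OutsideGeneral
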