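import Pool.Agent.Lib_helper15.Tridiag

/-!
Hyperinvariant subspaces of tridiagonal operators whose opposite off-diagonal entries have
nonnegative products.
-/

set_option autoImplicit false

open Filter Topology

namespace Pool.Agent.Lib_helper15.Kept.Tridiagonal

open Pool.Agent.Lib_helper15

/-- Let `X` be a reflexive complex Banach space with a biorthogonal system `(e n, es n)` which
reconstructs vectors weakly by finitely supported nonnegative weights (for example a Schauder basis,
with the weights `1` for `n < j`), such that coordinatewise conjugation is a bounded map `J`. Let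
`S` be a bounded operator, not a scalar multiple of the identity, that is tridiagonal with real
entries `S e_n = a n e_{n+1} + b n e_n + c (n-1) e_{n-1}` and `a n * c n ≥ 0` for all `n`. Then `S`
has a nontrivial hyperinvariant subspace. -/
theorem result :
    ∀ (X : Type) [NormedAddCommGroup X] [NormedSpace ℂ X] [CompleteSpace X],
      Function.Surjective (NormedSpace.inclusionInDoubleDual ℂ X) →
      ∀ (e : ℕ → X) (es : ℕ → StrongDual ℂ X) (F : ℕ → Finset ℕ) (ρ : ℕ → ℕ → ℝ),
        (∀ m n : ℕ, es m (e n) = if m = n then 1 else 0) →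
        (∀ j n : ℕ, 0 ≤ ρ j n) →
        (∀ (x : X) (f : StrongDual ℂ X),
          Tendsto (fun j => ∑ n ∈ F j, (ρ j n : ℂ) * (es n x * f (e n))) atTop (𝓝 (f x))) →
        ∀ J : X →SL[starRingEnd ℂ] X, (∀ n : ℕ, J (e n) = e n) →
        ∀ (S : X →L[ℂ] X) (a b c : ℕ → ℝ),
          (∀ c : ℂ, S ≠ c • ContinuousLinearMap.id ℂ X) →
          S (e 0) = (a 0 : ℂ) • e 1 + (b 0 : ℂ) • e 0 →
          (∀ n : ℕ, S (e (n + 1)) = (a (n + 1) : ℂ) • e (n + 2) + (b (n + 1) : ℂ) • e (n + 1) +
            (c n : ℂ) • e n) →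
          (∀ n : ℕ, 0 ≤ a n * c n) →
          ∃ M : Submodule ℂ X, IsClosed (M : Set X) ∧ M ≠ ⊥ ∧ M ≠ ⊤ ∧
            ∀ A : X →L[ℂ] X, A * S = S * A → ∀ x ∈ M, A x ∈ M := by
  intro X _ _ _ hrefl e es F ρ hbi hρ hsum J hJ S a b c hS hS0 hS1 hac
  exact tri_main hrefl hsum hρ hbi hJ hS hS0 hS1 hac

end Pool.Agent.Lib_helper15.Kept.Tridiagonal
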